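import Pool.Agent.W598.IA.Main
import Pool.Agent.W599.IA.FIBISO
import Pool.Agent.W417.IA.CENT
import Pool.Agent.W417.IA.SCH
import Pool.Agent.W417.IA.GEN
import Pool.Agent.W947.IA.NonMet
import Pool.Agent.W947.IA.Word
import Pool.Agent.W628.IA.AUT
import Pool.Agent.W800.IA.IDX
import Pool.Agent.W918.IA.SAN
import Pool.Agent.W586.IA.TREE
import Pool.Agent.W398.IA.Base
import Pool.Agent.W372.IA.CODE

/-!
MP_56d946_al: the isomorphism problem for self-similar groups generated by finite automata is
undecidable.

The definitions (`Automaton`, `Automaton.act`, `Automaton.group`, `Automaton.code`) are in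
`Pool.Agent.W598.IA.Defs`.

Idea of the proof. Let `F` be a free group embedded in `SL_2(ℤ)` as a subgroup of finite index and
let `A = ℤ² ⋊ F`. For a normal subgroup `N` of `F` let `fib N ≤ A × A` be the fibre product of two
copies of `A` over `F / N`. If `N` is the normal closure of a finite set `R ∪ {w}`, then `fib N`
is generated by the states of an automaton over 16 letters that is computable from `w`. Every
isomorphism between two such fibre products comes from an automorphism of `A` or its composition
with the exchange of the factors; since the outer automorphism group of `A` acts on the normal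
subgroups of `F` through a finite group, `fib N ≅ fib N'` and `N' ≤ N` imply `N = N'`. So
`fib ⟨⟨R, w⟩⟩ ≅ fib ⟨⟨R⟩⟩` if and only if `w = 1` in the group `⟨X | R⟩`, which is an undecidable
property of `w` for a suitable finite presentation.
-/

set_option autoImplicit false

namespace Pool.Agent.Results.MP_56d946_al.IsomorphismUndecidable

open Pool.Agent.W598.IA

/-- the inverse of the action of a state -/
def inv {m n : ℕ} (A : Automaton m n) : Fin m → List (Fin n) → List (Fin n)
  | _, [] => []
  | s, y :: w => (A.out s)⁻¹ y :: inv A (A.next s ((A.out s)⁻¹ y)) w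

theorem inv_act {m n : ℕ} (A : Automaton m n) (w : List (Fin n)) :
    ∀ s, inv A s (A.act s w) = w := by
  induction w with
  | nil => intro s; rfl
  | cons x w ih =>
    intro s
    show (A.out s)⁻¹ (A.out s x) :: inv A (A.next s ((A.out s)⁻¹ (A.out s x)))
      (A.act (A.next s x) w) = x :: w
    rw [show (A.out s)⁻¹ (A.out s x) = x from (A.out s).symm_apply_apply x, ih]

theorem act_inv {m n : ℕ} (A : Automaton m n) (w : List (Fin n)) :
    ∀ s, A.act s (inv A s w) = w := by
  induction w with
  | nil => intro s; rfl
  | cons y w ih =>
    intro s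
    show A.out s ((A.out s)⁻¹ y) :: A.act (A.next s ((A.out s)⁻¹ y))
      (inv A (A.next s ((A.out s)⁻¹ y)) w) = y :: w
    rw [show A.out s ((A.out s)⁻¹ y) = y from (A.out s).apply_symm_apply y, ih]

/-- Every state of an automaton acts on the words as an element of the group of the automaton. -/
theorem state_mem {m n : ℕ} (A : Automaton m n) (s : Fin m) :
    ∃ g ∈ A.group, ∀ w, g w = A.act s w :=
  ⟨⟨A.act s, inv A s, fun w => inv_act A w s, fun w => act_inv A w s⟩,
    Subgroup.subset_closure ⟨s, fun _ => rfl⟩, fun _ => rfl⟩

/-- **The isomorphism problem for self-similar groups is undecidable.**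
(1) There is no algorithm which, given two finite invertible automata `A` and `B` (over arbitrary
finite alphabets with at least two letters), decides whether `G(A)` and `G(B)` are isomorphic.
(2) There is a finite invertible automaton `B` over an alphabet of 16 letters such that there is no
algorithm which, given a finite invertible automaton `A` over this alphabet, decides whether `G(A)`
is isomorphic to `G(B)`. -/
theorem result :
    (¬ ∃ d : (ℕ × ℕ × List (List (ℕ × ℕ))) × (ℕ × ℕ × List (List (ℕ × ℕ))) → Bool,
      Computable d ∧
      ∀ (m n m' n' : ℕ) (A : Automaton m n) (B : Automaton m' n'),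
        1 ≤ m → 1 ≤ m' → 2 ≤ n → 2 ≤ n' →
        (d (A.code, B.code) = true ↔ Nonempty (A.group ≃* B.group))) ∧
    ∃ (m₀ : ℕ) (B : Automaton m₀ 16), 1 ≤ m₀ ∧
      ¬ ∃ d : ℕ × ℕ × List (List (ℕ × ℕ)) → Bool, Computable d ∧
        ∀ (m : ℕ) (A : Automaton m 16), 1 ≤ m →
          (d A.code = true ↔ Nonempty (A.group ≃* B.group)) := by
  have h := main Pool.Agent.W599.IA.main Pool.Agent.W417.IACent.main
    Pool.Agent.W947.IA.NonMet.main Pool.Agent.W628.IA.main Pool.Agent.W800.IA.IDX.main
    Pool.Agent.W918.IA.main Pool.Agent.W417.IASch.main Pool.Agent.W947.IA.Word.main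
    Pool.Agent.W417.IAGen.main Pool.Agent.W586.IA.main Pool.Agent.W398.IA.Base.main
    Pool.Agent.W372.IA.main
  refine ⟨?_, h⟩
  rintro ⟨d, hd, hdA⟩
  obtain ⟨m₀, B, hm₀, hB⟩ := h
  apply hB
  refine ⟨fun c => d (c, B.code), hd.comp (Computable.pair Computable.id (Computable.const _)), ?_⟩
  intro m A hm
  exact hdA m 16 m₀ 16 A B hm hm₀ (by norm_num) (by norm_num)

end Pool.Agent.Results.MP_56d946_al.IsomorphismUndecidable
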